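import Pool.Agent.helper54.V3.SpecG

set_option autoImplicit false

open Complex Metric Set Filter Topology MeasureTheory MPS V3

namespace V3S

/-- splitting a sum over `2k` indices into pairs -/
theorem GZF_pairs (k : ℕ) (a : ℕ → ℂ) :
    ∑ i ∈ Finset.range (2 * k), a i = ∑ j ∈ Finset.range k, (a (2 * j) + a (2 * j + 1)) := by
  induction k with
  | zero => simp
  | succ k ih =>
    rw [show 2 * (k + 1) = 2 * k + 1 + 1 by ring, Finset.sum_range_succ, Finset.sum_range_succ, ih,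
      Finset.sum_range_succ]
    ring

/-- derivative along a segment -/
theorem GZF_der (F : ℂ → ℂ) (Q : Polynomial ℂ) (hF : ∀ x, F x = Q.eval x) (x₀ d : ℂ) (s : ℝ) :
    HasDerivAt (fun r : ℝ => F (x₀ + r * d)) (deriv F (x₀ + s * d) * d) s := by
  have hFd : ∀ x, HasDerivAt F (deriv F x) x := by
    intro x
    have : F = fun x => Q.eval x := funext hF
    rw [this]
    exact (Q.differentiable x).hasDerivAt
  have h1 : HasDerivAt (fun z : ℂ => x₀ + z * d) d (s : ℂ) := by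
    simpa using ((hasDerivAt_id (s : ℂ)).mul_const d).const_add x₀
  exact (HasDerivAt.comp (s : ℂ) (hFd (x₀ + s * d)) h1).comp_ofReal

theorem GZF_sum (k : ℕ) (γ : ℕ → ℝ → ℂ) (q : ℕ → ℕ) (F : ℕ → ℂ → ℂ) (x₀ x₁ y₀ t : ℂ) (K : Set ℂ)
    (f g : ℂ → ℂ) (ε M : ℝ) (hε : ε ≤ 1) (hε0 : 0 ≤ ε) (_hM : 0 ≤ M)
    (hF : ∀ j, ∃ Q : Polynomial ℂ, ∀ x, F j x = Q.eval x) (hq : ∀ j, q j < k)
    (h1 : ∀ j < k, ∀ s : ℝ, γ (2 * j) s = F (q j) (x₀ + s * (x₁ - x₀)))
    (h2 : ∀ j < k, (∀ s : ℝ, γ (2 * j + 1) s = F (q (j + 1)) x₀) ∨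
      (∀ s : ℝ, γ (2 * j + 1) s = F (q (j + 1)) (y₀ + s * (x₀ - y₀))))
    (hK1 : ∀ s ∈ Icc (0 : ℝ) 1, x₀ + s * (x₁ - x₀) ∈ K)
    (hK2 : ∀ s ∈ Icc (0 : ℝ) 1, y₀ + s * (x₀ - y₀) ∈ K)
    (hK3 : ∀ s ∈ Icc (0 : ℝ) 1, x₀ + s * t ∈ K)
    (hfc : ∀ j < k, ContinuousOn (fun x => f (F j x) * deriv (F j) x) K)
    (hg : ContinuousOn g K)
    (hfg : ∀ j < k, ∀ x ∈ K, ‖f (F j x) * deriv (F j) x - g x‖ ≤ ε)
    (hgu : ∀ s ∈ Icc (0 : ℝ) 1, ‖g (x₀ + s * (x₁ - x₀)) - g (x₀ + s * t)‖ ≤ ε)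
    (hgM : ∀ x ∈ K, ‖g x‖ ≤ M) (ht : ‖x₁ - x₀ - t‖ ≤ ε) (hy : ‖x₀ - y₀‖ ≤ ε) :
    ‖chi (2 * k) γ f - k * ∫ s in (0 : ℝ)..1, g (x₀ + s * t) * t‖
      ≤ k * (ε * (2 * ‖t‖ + 2 * M + 3)) := by
  have hx1 : ‖x₁ - x₀‖ ≤ ‖t‖ + 1 := by
    calc ‖x₁ - x₀‖ = ‖(x₁ - x₀ - t) + t‖ := by congr 1; ring
      _ ≤ ‖x₁ - x₀ - t‖ + ‖t‖ := norm_add_le _ _
      _ ≤ ‖t‖ + 1 := by linarith
  have huIcc : Set.uIcc (0 : ℝ) 1 = Icc 0 1 := Set.uIcc_of_le zero_le_one
  have hcont3 : ContinuousOn (fun s : ℝ => g (x₀ + s * t) * t) (Icc 0 1) :=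
    ((hg.comp (by fun_prop) (fun s hs => hK3 s hs)).mul continuousOn_const)
  have hint3 : IntervalIntegrable (fun s : ℝ => g (x₀ + s * t) * t) volume 0 1 := by
    apply ContinuousOn.intervalIntegrable
    rw [huIcc]; exact hcont3
  -- even pieces
  have heven : ∀ j < k, ‖(∫ s in (0 : ℝ)..1, f (γ (2 * j) s) * derivWithin (γ (2 * j)) (Icc 0 1) s) -
      ∫ s in (0 : ℝ)..1, g (x₀ + s * t) * t‖ ≤ ε * (2 * (‖t‖ + 1) + M) := by
    intro j hj
    obtain ⟨Q, hQ⟩ := hF (q j)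
    have hγ : γ (2 * j) = fun s : ℝ => F (q j) (x₀ + s * (x₁ - x₀)) := funext (h1 j hj)
    have hder : ∀ s ∈ Icc (0 : ℝ) 1, derivWithin (γ (2 * j)) (Icc 0 1) s
        = deriv (F (q j)) (x₀ + s * (x₁ - x₀)) * (x₁ - x₀) := by
      intro s hs
      rw [hγ]
      exact (GZF_der (F (q j)) Q hQ x₀ (x₁ - x₀) s).hasDerivWithinAt.derivWithin
        (uniqueDiffOn_Icc zero_lt_one s hs)
    have hcongr : (∫ s in (0 : ℝ)..1, f (γ (2 * j) s) * derivWithin (γ (2 * j)) (Icc 0 1) s)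
        = ∫ s in (0 : ℝ)..1, (f (F (q j) (x₀ + s * (x₁ - x₀))) *
          deriv (F (q j)) (x₀ + s * (x₁ - x₀))) * (x₁ - x₀) := by
      apply intervalIntegral.integral_congr
      intro s hs
      rw [huIcc] at hs
      simp only
      rw [hder s hs, h1 j hj s]
      ring
    have hcont : ContinuousOn (fun s : ℝ => (f (F (q j) (x₀ + s * (x₁ - x₀))) *
          deriv (F (q j)) (x₀ + s * (x₁ - x₀))) * (x₁ - x₀)) (Icc 0 1) :=
      (((hfc (q j) (hq j)).comp (by fun_prop) (fun s hs => hK1 s hs)).mul continuousOn_const)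
    have hint : IntervalIntegrable (fun s : ℝ => (f (F (q j) (x₀ + s * (x₁ - x₀))) *
          deriv (F (q j)) (x₀ + s * (x₁ - x₀))) * (x₁ - x₀)) volume 0 1 := by
      apply ContinuousOn.intervalIntegrable
      rw [huIcc]; exact hcont
    rw [hcongr, ← intervalIntegral.integral_sub hint hint3]
    have := intervalIntegral.norm_integral_le_of_norm_le_const (a := (0 : ℝ)) (b := 1)
      (f := fun s : ℝ => (f (F (q j) (x₀ + s * (x₁ - x₀))) *
          deriv (F (q j)) (x₀ + s * (x₁ - x₀))) * (x₁ - x₀) - g (x₀ + s * t) * t)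
      (C := ε * (2 * (‖t‖ + 1) + M)) ?_
    · simpa using this
    · intro s hs
      have hs' : s ∈ Icc (0 : ℝ) 1 := by
        rw [Set.uIoc_of_le zero_le_one] at hs
        exact ⟨hs.1.le, hs.2⟩
      have e1 := hfg (q j) (hq j) _ (hK1 s hs')
      have e2 := hgu s hs'
      have e3 := hgM _ (hK3 s hs')
      calc ‖(f (F (q j) (x₀ + s * (x₁ - x₀))) * deriv (F (q j)) (x₀ + s * (x₁ - x₀))) * (x₁ - x₀)
            - g (x₀ + s * t) * t‖
          = ‖(f (F (q j) (x₀ + s * (x₁ - x₀))) * deriv (F (q j)) (x₀ + s * (x₁ - x₀))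
                - g (x₀ + s * (x₁ - x₀))) * (x₁ - x₀)
              + (g (x₀ + s * (x₁ - x₀)) - g (x₀ + s * t)) * (x₁ - x₀)
              + g (x₀ + s * t) * (x₁ - x₀ - t)‖ := by congr 1; ring
        _ ≤ ‖(f (F (q j) (x₀ + s * (x₁ - x₀))) * deriv (F (q j)) (x₀ + s * (x₁ - x₀))
                - g (x₀ + s * (x₁ - x₀))) * (x₁ - x₀)‖
              + ‖(g (x₀ + s * (x₁ - x₀)) - g (x₀ + s * t)) * (x₁ - x₀)‖
              + ‖g (x₀ + s * t) * (x₁ - x₀ - t)‖ := norm_add₃_le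
        _ ≤ ε * (‖t‖ + 1) + ε * (‖t‖ + 1) + M * ε := by
            rw [norm_mul, norm_mul, norm_mul]
            gcongr
        _ = ε * (2 * (‖t‖ + 1) + M) := by ring
  -- odd pieces
  have hodd : ∀ j < k, ‖∫ s in (0 : ℝ)..1, f (γ (2 * j + 1) s) *
      derivWithin (γ (2 * j + 1)) (Icc 0 1) s‖ ≤ ε * (M + 1) := by
    intro j hj
    rcases h2 j hj with h | h
    · have hγ : γ (2 * j + 1) = fun _ : ℝ => F (q (j + 1)) x₀ := funext h
      have : ∀ s : ℝ, derivWithin (γ (2 * j + 1)) (Icc 0 1) s = 0 := by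
        intro s; rw [hγ]; simp
      simp only [this, mul_zero, intervalIntegral.integral_zero, norm_zero]
      positivity
    · obtain ⟨Q, hQ⟩ := hF (q (j + 1))
      have hγ : γ (2 * j + 1) = fun s : ℝ => F (q (j + 1)) (y₀ + s * (x₀ - y₀)) := funext h
      have hder : ∀ s ∈ Icc (0 : ℝ) 1, derivWithin (γ (2 * j + 1)) (Icc 0 1) s
          = deriv (F (q (j + 1))) (y₀ + s * (x₀ - y₀)) * (x₀ - y₀) := by
        intro s hs
        rw [hγ]
        exact (GZF_der (F (q (j + 1))) Q hQ y₀ (x₀ - y₀) s).hasDerivWithinAt.derivWithin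
          (uniqueDiffOn_Icc zero_lt_one s hs)
      have := intervalIntegral.norm_integral_le_of_norm_le_const (a := (0 : ℝ)) (b := 1)
        (f := fun s : ℝ => f (γ (2 * j + 1) s) * derivWithin (γ (2 * j + 1)) (Icc 0 1) s)
        (C := ε * (M + 1)) ?_
      · simpa using this
      · intro s hs
        have hs' : s ∈ Icc (0 : ℝ) 1 := by
          rw [Set.uIoc_of_le zero_le_one] at hs
          exact ⟨hs.1.le, hs.2⟩
        rw [hder s hs', h s, ← mul_assoc, norm_mul]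
        have e1 := hfg (q (j + 1)) (hq (j + 1)) _ (hK2 s hs')
        have e3 := hgM _ (hK2 s hs')
        have e4 : ‖f (F (q (j + 1)) (y₀ + s * (x₀ - y₀))) *
            deriv (F (q (j + 1))) (y₀ + s * (x₀ - y₀))‖ ≤ M + 1 := by
          calc ‖f (F (q (j + 1)) (y₀ + s * (x₀ - y₀))) *
              deriv (F (q (j + 1))) (y₀ + s * (x₀ - y₀))‖
              = ‖(f (F (q (j + 1)) (y₀ + s * (x₀ - y₀))) *
              deriv (F (q (j + 1))) (y₀ + s * (x₀ - y₀)) - g (y₀ + s * (x₀ - y₀))) +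
                g (y₀ + s * (x₀ - y₀))‖ := by congr 1; ring
            _ ≤ _ := norm_add_le _ _
            _ ≤ ε + M := add_le_add e1 e3
            _ ≤ M + 1 := by linarith
        calc _ ≤ (M + 1) * ε := by gcongr
          _ = ε * (M + 1) := by ring
  -- the sum
  unfold chi
  rw [GZF_pairs]
  have hk : (k : ℂ) * (∫ s in (0 : ℝ)..1, g (x₀ + s * t) * t)
      = ∑ _j ∈ Finset.range k, ∫ s in (0 : ℝ)..1, g (x₀ + s * t) * t := by
    rw [Finset.sum_const, Finset.card_range, nsmul_eq_mul]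
  rw [hk, ← Finset.sum_sub_distrib]
  refine (norm_sum_le _ _).trans ?_
  have : ∀ j ∈ Finset.range k, ‖(∫ s in (0 : ℝ)..1, f (γ (2 * j) s) *
        derivWithin (γ (2 * j)) (Icc 0 1) s) +
      (∫ s in (0 : ℝ)..1, f (γ (2 * j + 1) s) * derivWithin (γ (2 * j + 1)) (Icc 0 1) s) -
      ∫ s in (0 : ℝ)..1, g (x₀ + s * t) * t‖ ≤ ε * (2 * ‖t‖ + 2 * M + 3) := by
    intro j hj
    have hj' := Finset.mem_range.1 hj
    calc _ = ‖((∫ s in (0 : ℝ)..1, f (γ (2 * j) s) * derivWithin (γ (2 * j)) (Icc 0 1) s) -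
          ∫ s in (0 : ℝ)..1, g (x₀ + s * t) * t) +
          ∫ s in (0 : ℝ)..1, f (γ (2 * j + 1) s) * derivWithin (γ (2 * j + 1)) (Icc 0 1) s‖ := by
            congr 1; ring
      _ ≤ _ := norm_add_le _ _
      _ ≤ ε * (2 * (‖t‖ + 1) + M) + ε * (M + 1) := add_le_add (heven j hj') (hodd j hj')
      _ = ε * (2 * ‖t‖ + 2 * M + 3) := by ring
  refine (Finset.sum_le_sum this).trans ?_
  rw [Finset.sum_const, Finset.card_range, nsmul_eq_mul]

/-- the compact set around the segment -/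
theorem GZF_K (t : ℂ) (ht : t ≠ 0) : ∃ K : Set ℂ, IsCompact K ∧ K ⊆ (ZL t)ᶜ ∧
    ∀ x : ℂ, ∀ s ∈ Icc (0 : ℝ) 1, ‖x - (t * (((1 : ℝ) : ℂ) * I) + s * t)‖ ≤ ‖t‖ / 2 → x ∈ K := by
  refine ⟨(fun z => t * z) '' (Icc (-2) 2 ×ℂ Icc (1 / 2) (3 / 2)), ?_, ?_, ?_⟩
  · exact (isCompact_Icc.reProdIm isCompact_Icc).image (by fun_prop)
  · rintro _ ⟨z, hz, rfl⟩ ⟨n, hn⟩
    have h1 : (n : ℂ) = z := by
      have : t * z = t * n := by rw [mul_comm t (n : ℂ)]; exact hn.symm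
      exact (mul_left_cancel₀ ht this).symm
    rw [mem_reProdIm] at hz
    have : z.im = 0 := by rw [← h1]; simp
    rw [this] at hz
    have := hz.2.1
    norm_num at this
  · intro x s hs hx
    refine ⟨x / t, ?_, by field_simp⟩
    have htn : 0 < ‖t‖ := norm_pos_iff.2 ht
    have h1 : ‖x / t - (I + s)‖ ≤ 1 / 2 := by
      have : x / t - (I + s) = (x - (t * (((1 : ℝ) : ℂ) * I) + s * t)) / t := by
        field_simp
        push_cast
        ring
      rw [this, norm_div, div_le_iff₀ htn]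
      linarith
    have hre := (abs_re_le_norm (x / t - (I + s))).trans h1
    have him := (abs_im_le_norm (x / t - (I + s))).trans h1
    rw [sub_re, add_re, I_re, ofReal_re, abs_le] at hre
    rw [sub_im, add_im, I_im, ofReal_im, abs_le] at him
    rw [mem_reProdIm]
    exact ⟨⟨by linarith [hs.1], by linarith [hs.2]⟩, ⟨by linarith, by linarith⟩⟩

/-- `(exp z - 1)/z → 1` -/
theorem GZF_exp (u : ℕ → ℂ) (hu : Tendsto u UF (𝓝 0)) (hne : ∀ m, u m ≠ 0) :
    Tendsto (fun m => (Complex.exp (u m) - 1) / u m) UF (𝓝 1) := by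
  have h := (Complex.hasDerivAt_exp 0).tendsto_slope
  have h2 : Tendsto u UF (𝓝[≠] 0) := tendsto_nhdsWithin_iff.2 ⟨hu, Eventually.of_forall hne⟩
  have h3 := h.comp h2
  rw [Complex.exp_zero] at h3
  refine h3.congr fun m => ?_
  simp only [Function.comp, slope_def_field, Complex.exp_zero, sub_zero]

theorem GZF (hGLB : GLB_stmt) (hGZC : GZC_stmt) (hGZP : GZP_stmt) (hGZX : GZX_stmt)
    (hGPO : GPO_stmt) (hCHI : V3.CHI_stmt) (hGBA : GBA_stmt) (hGFK : GFK_stmt) : GZF_stmt := by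
  intro n ra Cf D A t c' hS hL hA ht hPin hA1 hc' hvin hvB
  obtain ⟨g1, -⟩ := hGLB n ra Cf D hS hL
  have htP : t ∈ Pin D := by
    rw [hPin]; exact ⟨1, by simp⟩
  obtain ⟨l, hl⟩ := g1 t htP
  have hAt := hA1 t htP
  obtain ⟨K, hK, hKsub, hKmem⟩ := GZF_K t ht
  have hKPin : K ⊆ (Pin D)ᶜ := by rw [hPin]; exact hKsub
  set x₀ : ℂ := t * (((1 : ℝ) : ℂ) * I) with hx₀
  have htn : 0 < ‖t‖ := norm_pos_iff.2 ht
  have hvne : ∀ x ∈ K, vin D x ≠ 0 := by
    intro x hx h0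
    have := hvB x (hKPin hx)
    rw [h0] at this
    norm_num at this
  have hvc : Continuous (vin D) := hL.vdiff.continuous
  have hvdc : Continuous (deriv (vin D)) :=
    ((hL.vdiff.contDiff (n := 1)).continuous_deriv le_rfl)
  have hg1c : ContinuousOn (fun x => 1 / vin D x) K :=
    continuousOn_const.div hvc.continuousOn hvne
  have hg2c : ContinuousOn (fun x => deriv (vin D) x / vin D x) K :=
    hvdc.continuousOn.div hvc.continuousOn hvne
  obtain ⟨M1, hM1⟩ := hK.exists_bound_of_continuousOn hg1c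
  obtain ⟨M2, hM2⟩ := hK.exists_bound_of_continuousOn hg2c
  set M : ℝ := max (max M1 M2) 0 with hMdef
  have hM0 : 0 ≤ M := le_max_right _ _
  have hM1' : ∀ x ∈ K, ‖1 / vin D x‖ ≤ M := fun x hx =>
    (hM1 x hx).trans ((le_max_left _ _).trans (le_max_left _ _))
  have hM2' : ∀ x ∈ K, ‖deriv (vin D) x / vin D x‖ ≤ M := fun x hx =>
    (hM2 x hx).trans ((le_max_right _ _).trans (le_max_left _ _))
  set W : ℝ := 2 * ‖t‖ + 2 * M + 3 with hW
  have hWpos : 0 < W := by positivity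
  set ε : ℝ := min (1 / 2) (1 / (10 * W)) with hεdef
  have hεpos : 0 < ε := by
    rw [hεdef]; exact lt_min (by norm_num) (by positivity)
  have hε1 : ε ≤ 1 / 2 := min_le_left _ _
  have hεW : ε * W ≤ 1 / 10 := by
    have : ε ≤ 1 / (10 * W) := min_le_right _ _
    calc ε * W ≤ 1 / (10 * W) * W := by gcongr
      _ = 1 / 10 := by field_simp
  -- uniform continuity
  obtain ⟨δ1, hδ1, hu1⟩ := Metric.uniformContinuousOn_iff.1
    (hK.uniformContinuousOn_of_continuous hg1c) ε hεpos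
  obtain ⟨δ2, hδ2, hu2⟩ := Metric.uniformContinuousOn_iff.1
    (hK.uniformContinuousOn_of_continuous hg2c) ε hεpos
  set η : ℝ := min (min (δ1 / 2) (δ2 / 2)) (min ε (‖t‖ / 2)) with hηdef
  have hηpos : 0 < η := by
    rw [hηdef]
    exact lt_min (lt_min (by positivity) (by positivity)) (lt_min hεpos (by positivity))
  have hη1 : η < δ1 := lt_of_le_of_lt ((min_le_left _ _).trans (min_le_left _ _)) (by linarith)
  have hη2 : η < δ2 := lt_of_le_of_lt ((min_le_left _ _).trans (min_le_right _ _)) (by linarith)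
  have hηε : η ≤ ε := (min_le_right _ _).trans (min_le_left _ _)
  have hηt : η ≤ ‖t‖ / 2 := (min_le_right _ _).trans (min_le_right _ _)
  -- eventual facts
  have hρ : 0 < ‖x₀‖ + 1 := by positivity
  have hx0b : x₀ ∈ ball (0 : ℂ) (‖x₀‖ + 1) := by
    rw [mem_ball_zero_iff]; linarith
  have E1 := hA.unif t htP l hl (‖x₀‖ + 1) hρ η hηpos
  have E2 := (hGFK n ra Cf D hS hL (‖x₀‖ + 1) hρ).2 η hηpos
  have E3 := hGZP n ra Cf D hS hL hvB K hK hKPin ε hεpos
  have hlam : Tendsto (fun m => (D m).lam) UF (𝓝 0) := hS.lim.mono_left UF_le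
  have hlamne : ∀ m, (D m).lam ≠ 0 := by
    intro m h0
    have := (hS.good m).lam0
    rw [h0] at this
    simp at this
  have E4 : ∀ᶠ m in UF, ‖(Complex.exp (D m).lam - 1) / (D m).lam - 1‖ < 1 / 10 := by
    have := (Metric.tendsto_nhds.1 (GZF_exp _ hlam hlamne)) (1 / 10) (by norm_num)
    simpa [dist_eq_norm] using this
  obtain ⟨m, e1, e2, e3, e4⟩ := (E1.and (E2.and (E3.and E4))).exists
  have hG := hS.good m
  have hk2 := hG.hk
  obtain ⟨b1, b2, b3, b4, b5, b6, b7, b8, b9, b10, b11, b12, b13, b14, b15, b16⟩ :=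
    hGBA n ra Cf (D m) hG
  have hexp : Complex.exp (D m).lam ≠ 1 := by
    intro h
    have h1 := congrArg norm h
    rw [Complex.norm_exp, norm_one, Real.exp_eq_one_iff] at h1
    exact hG.lam0.ne' h1
  obtain ⟨Fp, Vp, Qp, p1, p2, p3, p4, p5⟩ := hGPO n ra Cf (D m) hG hexp
  obtain ⟨γ, q, hγ, hq, c1, c2⟩ := hGZC n ra Cf (D m) hG x₀ (l m)
  set x₁ := (D m).F (l m).val x₀ with hx₁
  set y₀ := (D m).F (D m).k x₀ with hy₀
  have hx1t : ‖x₁ - x₀ - t‖ ≤ η := by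
    have := (e1 x₀ hx0b).1
    rw [hAt, one_mul] at this
    calc ‖x₁ - x₀ - t‖ = ‖x₁ - (t + x₀)‖ := by congr 1; ring
      _ ≤ η := this
  have hy0 : ‖x₀ - y₀‖ ≤ η := by
    rw [norm_sub_rev]; exact (e2 x₀ hx0b).1
  have hK1 : ∀ s ∈ Icc (0 : ℝ) 1, x₀ + s * (x₁ - x₀) ∈ K := by
    intro s hs
    refine hKmem _ s hs ?_
    have : x₀ + s * (x₁ - x₀) - (x₀ + s * t) = s * (x₁ - x₀ - t) := by ring
    rw [this, norm_mul, Complex.norm_real, Real.norm_of_nonneg hs.1]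
    calc s * ‖x₁ - x₀ - t‖ ≤ 1 * η := mul_le_mul hs.2 hx1t (norm_nonneg _) zero_le_one
      _ ≤ ‖t‖ / 2 := by linarith
  have hK3 : ∀ s ∈ Icc (0 : ℝ) 1, x₀ + s * t ∈ K := by
    intro s hs
    refine hKmem _ s hs ?_
    rw [sub_self, norm_zero]; positivity
  have hK2 : ∀ s ∈ Icc (0 : ℝ) 1, y₀ + s * (x₀ - y₀) ∈ K := by
    intro s hs
    refine hKmem _ 0 ⟨le_rfl, zero_le_one⟩ ?_
    have : y₀ + s * (x₀ - y₀) - (x₀ + ((0 : ℝ) : ℂ) * t) = ((s - 1 : ℝ) : ℂ) * (x₀ - y₀) := by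
      push_cast; ring
    rw [this, norm_mul, Complex.norm_real, Real.norm_eq_abs]
    have hs1 : |s - 1| ≤ 1 := by
      rw [abs_le]; exact ⟨by linarith [hs.1], by linarith [hs.2]⟩
    calc |s - 1| * ‖x₀ - y₀‖ ≤ 1 * η := mul_le_mul hs1 hy0 (norm_nonneg _) zero_le_one
      _ ≤ ‖t‖ / 2 := by linarith
  have hx0K : x₀ ∈ K := by
    have := hK3 0 ⟨le_rfl, zero_le_one⟩
    simpa using this
  have hdist : ∀ s ∈ Icc (0 : ℝ) 1, dist (x₀ + s * (x₁ - x₀)) (x₀ + s * t) ≤ η := by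
    intro s hs
    rw [dist_eq_norm]
    have : x₀ + s * (x₁ - x₀) - (x₀ + s * t) = s * (x₁ - x₀ - t) := by ring
    rw [this, norm_mul, Complex.norm_real, Real.norm_of_nonneg hs.1]
    calc s * ‖x₁ - x₀ - t‖ ≤ 1 * η := mul_le_mul hs.2 hx1t (norm_nonneg _) zero_le_one
      _ = η := one_mul _
  -- polynomials
  have hvV : (D m).v = fun x => Vp.eval x := funext p1
  have hdvV : ∀ x, deriv (D m).v x = Vp.derivative.eval x := by
    intro x; rw [hvV]; exact Vp.deriv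
  have hFd : ∀ j, Continuous (deriv ((D m).F j)) := by
    intro j
    obtain ⟨Q, hQ⟩ := b8 j
    have : (D m).F j = fun x => Q.eval x := funext hQ
    rw [this]
    have h2 : deriv (fun x => Q.eval x) = fun x => Q.derivative.eval x := by
      funext x; exact Q.deriv
    rw [h2]
    exact Q.derivative.continuous
  have hFc : ∀ j, Continuous ((D m).F j) := by
    intro j
    obtain ⟨Q, hQ⟩ := b8 j
    have : (D m).F j = fun x => Q.eval x := funext hQ
    rw [this]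
    exact Q.continuous
  have hcurve : ∀ j < 2 * (D m).k, ∀ s ∈ Icc (0 : ℝ) 1, ∃ i ≤ (D m).k, ∃ x ∈ K,
      γ j s = (D m).F i x := by
    intro j hj s hs
    rcases Nat.even_or_odd' j with ⟨i, hi | hi⟩
    · have hi' : i < (D m).k := by omega
      refine ⟨q i, (hq i).le, _, hK1 s hs, ?_⟩
      rw [hi]; exact c1 i hi' s
    · have hi' : i < (D m).k := by omega
      rcases c2 i hi' with h | h
      · refine ⟨q (i + 1), (hq _).le, x₀, hx0K, ?_⟩
        rw [hi]; exact h s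
      · refine ⟨q (i + 1), (hq _).le, _, hK2 s hs, ?_⟩
        rw [hi]; exact h s
  have hchain : ∀ j < 2 * (D m).k, ∀ s ∈ Icc (0 : ℝ) 1,
      ‖Fp.eval (γ j s) - 1‖ ≤ 1 / 2 ∧ Vp.eval (γ j s) ≠ 0 := by
    intro j hj s hs
    obtain ⟨i, hi, x, hx, hjx⟩ := hcurve j hj s hs
    obtain ⟨f1, f2, f3, -, -⟩ := e3 i hi x hx
    rw [hjx, ← p1, p3 _ f1]
    exact ⟨f3.trans hε1, f2⟩
  have hCH := hCHI (2 * (D m).k) γ Fp Vp Qp (Finset.univ.image (D m).p)
    ((Complex.exp (D m).lam - 1) / (D m).lam) (fun x => (D m).v x * (D m).B x) hγ p2 hchain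
    (by
      intro a ha
      obtain ⟨i, -, rfl⟩ := Finset.mem_image.1 ha
      exact p4 i)
    (by
      intro a ha h0
      have h1 : ∀ i, a ≠ (D m).p i := fun i hi => ha (Finset.mem_image.2 ⟨i, Finset.mem_univ _, hi.symm⟩)
      rw [p3 a h1, p1 a, h0]
      ring)
    (by
      intro z hz
      have h1 : ∀ i, z ≠ (D m).p i := fun i hi => hz (Finset.mem_image.2 ⟨i, Finset.mem_univ _, hi.symm⟩)
      rw [Finset.sum_image (fun i _ j _ h => b13 h)]
      exact p5 z h1)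
  -- the two estimates
  have hlt : ∀ j, j < (D m).k → j ≤ (D m).k := fun j hj => hj.le
  have hVne : ∀ j < (D m).k, ∀ x ∈ K, Vp.eval ((D m).F j x) ≠ 0 := by
    intro j hj x hx
    rw [← p1]; exact (e3 j hj.le x hx).2.1
  have hwc : ∀ j < (D m).k, ContinuousOn
      (fun x => ((D m).v ((D m).F j x) * (D m).B ((D m).F j x)) * deriv ((D m).F j) x) K := by
    intro j hj
    have h1 : ContinuousOn (fun x => (Fp.eval ((D m).F j x) / Vp.eval ((D m).F j x)) *
        deriv ((D m).F j) x) K :=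
      (((Fp.continuous.comp (hFc j)).continuousOn.div
        (Vp.continuous.comp (hFc j)).continuousOn (hVne j hj)).mul (hFd j).continuousOn)
    refine h1.congr fun x hx => ?_
    obtain ⟨f1, f2, -⟩ := e3 j hj.le x hx
    simp only
    rw [p3 _ f1, ← p1]
    field_simp
  have hw2c : ∀ j < (D m).k, ContinuousOn
      (fun x => (Vp.derivative.eval ((D m).F j x) / Vp.eval ((D m).F j x)) *
        deriv ((D m).F j) x) K := by
    intro j hj
    exact (((Vp.derivative.continuous.comp (hFc j)).continuousOn.div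
        (Vp.continuous.comp (hFc j)).continuousOn (hVne j hj)).mul (hFd j).continuousOn)
  have S1 := GZF_sum (D m).k γ q (D m).F x₀ x₁ y₀ t K (fun x => (D m).v x * (D m).B x)
    (fun x => 1 / vin D x) ε M (by linarith) hεpos.le hM0 b8 hq c1 c2 hK1 hK2 hK3 hwc hg1c
    (fun j hj x hx => (e3 j hj.le x hx).2.2.2.1)
    (fun s hs => by
      have := hu1 _ (hK1 s hs) _ (hK3 s hs) (lt_of_le_of_lt (hdist s hs) hη1)
      rw [dist_eq_norm] at this
      exact this.le)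
    hM1' (hx1t.trans hηε) (hy0.trans hηε)
  have S2 := GZF_sum (D m).k γ q (D m).F x₀ x₁ y₀ t K
    (fun z => Vp.derivative.eval z / Vp.eval z)
    (fun x => deriv (vin D) x / vin D x) ε M (by linarith) hεpos.le hM0 b8 hq c1 c2 hK1 hK2 hK3
    hw2c hg2c
    (fun j hj x hx => by
      have := (e3 j hj.le x hx).2.2.2.2
      rw [hdvV, p1] at this
      exact this)
    (fun s hs => by
      have := hu2 _ (hK1 s hs) _ (hK3 s hs) (lt_of_le_of_lt (hdist s hs) hη2)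
      rw [dist_eq_norm] at this
      exact this.le)
    hM2' (hx1t.trans hηε) (hy0.trans hηε)
  obtain ⟨-, X1, X2⟩ := hGZX (vin D) t c' 1 ht hc' one_pos hvin
  have kpos : (0 : ℝ) < ((D m).k : ℝ) := by
    have : 0 < (D m).k := by omega
    exact_mod_cast this
  rw [X1, mul_zero, sub_zero] at S1
  rw [X2] at S2
  rw [hCH] at S1
  have hbound1 : ‖(Complex.exp (D m).lam - 1) / (D m).lam *
      chi (2 * (D m).k) γ (fun z => Vp.derivative.eval z / Vp.eval z)‖ ≤ (D m).k * (1 / 10) := by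
    refine S1.trans ?_
    gcongr
  have hbound2 : ‖chi (2 * (D m).k) γ (fun z => Vp.derivative.eval z / Vp.eval z) -
      (D m).k * -(2 * Real.pi * I)‖ ≤ (D m).k * (1 / 10) := by
    refine S2.trans ?_
    gcongr
  generalize chi (2 * (D m).k) γ (fun z => Vp.derivative.eval z / Vp.eval z) = X at *
  generalize (Complex.exp (D m).lam - 1) / (D m).lam = κ at *
  have hκ : 9 / 10 ≤ ‖κ‖ := by
    have h1 : ‖(1 : ℂ)‖ ≤ ‖κ‖ + ‖κ - 1‖ := by
      calc ‖(1 : ℂ)‖ = ‖κ - (κ - 1)‖ := by congr 1; ring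
        _ ≤ ‖κ‖ + ‖κ - 1‖ := norm_sub_le _ _
    rw [norm_one] at h1
    linarith
  have hX : 6 * ((D m).k : ℝ) ≤ ‖X‖ := by
    have h1 : ‖((D m).k : ℂ) * -(2 * Real.pi * I)‖ ≤ ‖X‖ + ‖X - (D m).k * -(2 * Real.pi * I)‖ := by
      calc ‖((D m).k : ℂ) * -(2 * Real.pi * I)‖
          = ‖X - (X - (D m).k * -(2 * Real.pi * I))‖ := by congr 1; ring
        _ ≤ _ := norm_sub_le _ _
    have h2 : ‖((D m).k : ℂ) * -(2 * Real.pi * I)‖ = (D m).k * (2 * Real.pi) := by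
      rw [norm_mul, norm_neg, norm_mul, norm_mul, Complex.norm_natCast, Complex.norm_I,
        Complex.norm_real, Real.norm_of_nonneg Real.pi_pos.le]
      norm_num
    have h3 := Real.pi_gt_d2
    rw [h2] at h1
    nlinarith
  rw [norm_mul] at hbound1
  have : (9 / 10) * (6 * ((D m).k : ℝ)) ≤ ‖κ‖ * ‖X‖ :=
    mul_le_mul hκ hX (by positivity) (norm_nonneg _)
  linarith

end V3S
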